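import Pool.Agent.Helper35.PI.St2

/-! # Project PI, module C2: reparametrisation as a graph (inverse function theorem) -/

set_option autoImplicit false

namespace Helper95.PI

open Helper35.PI
open scoped ContDiff Topology
open Filter Set

theorem hC2 : StC2 := by
  intro n N f y₀ t₀ L hf hLI hL
  have hn : (∞ : WithTop ℕ∞) ≠ 0 := by simp
  -- the adjoint of `L`
  obtain ⟨A, hA⟩ : ∃ A : EE N →L[ℝ] EE n, ∀ w v, inner ℝ (A w) v = inner ℝ w (L v) :=
    ⟨ContinuousLinearMap.adjoint L.toContinuousLinearMap, fun w v => by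
      rw [ContinuousLinearMap.adjoint_inner_left]; rfl⟩
  have hAL : ∀ x, A (L x) = x := by
    intro x
    refine ext_inner_right ℝ fun v => ?_
    rw [hA, L.inner_map_map]
  -- derivatives
  have hfd : HasFDerivAt f (fderiv ℝ f (y₀, t₀)) (y₀, t₀) := (hf.differentiableAt hn).hasFDerivAt
  set f' := fderiv ℝ f (y₀, t₀) with hf'
  have hdv : ∀ i : Fin n, dv1 (fun y => f (y, t₀)) y₀ i = f' (ee i, 0) := by
    intro i
    have h1 : HasFDerivAt (fun y : EE n => f (y, t₀)) (f'.comp (ContinuousLinearMap.inl ℝ (EE n) ℝ)) y₀ :=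
      HasFDerivAt.comp y₀ hfd (hasFDerivAt_prodMk_left y₀ t₀)
    unfold dv1
    rw [h1.fderiv]
    rfl
  have hsum : ∀ η : EE n, f' (η, 0) = ∑ i, η i • dv1 (fun y => f (y, t₀)) y₀ i := by
    intro η
    have h1 : η = ∑ i, η i • (ee i : EE n) := by
      have := (EuclideanSpace.basisFun (Fin n) ℝ).sum_repr η
      simp only [EuclideanSpace.basisFun_repr, EuclideanSpace.basisFun_apply] at this
      exact this.symm
    have h2 : f' (η, 0) = (f'.comp (ContinuousLinearMap.inl ℝ (EE n) ℝ)) η := rfl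
    rw [h2]
    conv_lhs => rw [h1]
    rw [map_sum]
    refine Finset.sum_congr rfl fun i _ => ?_
    rw [map_smul, hdv i]
    rfl
  -- the map to be inverted
  set Φ : EE n × ℝ → EE n × ℝ := fun z => (A (f z - f (y₀, t₀)), z.2) with hΦ
  set Φ' : EE n × ℝ →L[ℝ] EE n × ℝ := (A.comp f').prod (ContinuousLinearMap.snd ℝ (EE n) ℝ) with hΦ'
  have hΦd : HasFDerivAt Φ Φ' (y₀, t₀) := by
    refine HasFDerivAt.prodMk ?_ hasFDerivAt_snd
    exact A.hasFDerivAt.comp (y₀, t₀) (hfd.sub_const _)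
  have hΦc : ContDiffAt ℝ ∞ Φ (y₀, t₀) := by
    refine ContDiffAt.prodMk ?_ contDiffAt_snd
    exact A.contDiff.contDiffAt.comp (y₀, t₀) (hf.sub contDiffAt_const)
  have hinj : Function.Injective (Φ' : EE n × ℝ →ₗ[ℝ] EE n × ℝ) := by
    rw [← LinearMap.ker_eq_bot, LinearMap.ker_eq_bot']
    rintro ⟨η, s⟩ h
    have h1 : A (f' (η, s)) = 0 := congrArg Prod.fst h
    have h2 : s = 0 := congrArg Prod.snd h
    subst h2
    have h3 : f' (η, 0) ∈ LinearMap.range L.toLinearMap := by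
      rw [hL, hsum η]
      exact Submodule.sum_mem _ fun i _ => Submodule.smul_mem _ _ (Submodule.subset_span ⟨i, rfl⟩)
    obtain ⟨ξ, hξ⟩ := h3
    have h4 : f' (η, 0) = L ξ := hξ.symm
    rw [h4, hAL] at h1
    rw [h1, map_zero, hsum η] at h4
    have h5 := (Fintype.linearIndependent_iff.1 hLI) (fun i => η i) h4
    have h6 : η = 0 := by
      ext i
      exact h5 i
    rw [h6]
    rfl
  obtain ⟨e, he⟩ : ∃ e : (EE n × ℝ) ≃L[ℝ] (EE n × ℝ), (e : EE n × ℝ →L[ℝ] EE n × ℝ) = Φ' :=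
    ⟨(LinearEquiv.ofInjectiveEndo (Φ' : EE n × ℝ →ₗ[ℝ] EE n × ℝ) hinj).toContinuousLinearEquiv,
      ContinuousLinearMap.ext fun _ => rfl⟩
  rw [← he] at hΦd
  have hΦ0 : Φ (y₀, t₀) = (0, t₀) := by
    rw [hΦ]
    simp
  set g := hΦc.localInverse hΦd hn with hg
  have hgc : ContDiffAt ℝ ∞ g (0, t₀) := by
    have := hΦc.to_localInverse hΦd hn
    rw [hΦ0] at this
    exact this
  have hg0 : g (0, t₀) = (y₀, t₀) := by
    have := hΦc.localInverse_apply_image hΦd hn
    rw [hΦ0] at this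
    exact this
  have hgr : ∀ᶠ z in 𝓝 ((0 : EE n), t₀), Φ (g z) = z := by
    have := (hΦc.hasStrictFDerivAt' hΦd hn).eventually_right_inverse
    rw [hΦ0] at this
    exact this
  refine ⟨fun z => (g z).1, contDiffAt_fst.comp (0, t₀) hgc, congrArg Prod.fst hg0, ?_⟩
  filter_upwards [hgr] with z hz v
  have hz' : (A (f (g z) - f (y₀, t₀)), (g z).2) = z := hz
  obtain ⟨h1, h2⟩ := Prod.ext_iff.1 hz'
  have h1 : A (f (g z) - f (y₀, t₀)) = z.1 := h1
  have h2 : (g z).2 = z.2 := h2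
  have h3 : ((g z).1, z.2) = g z := by rw [← h2]
  rw [h3, inner_sub_left, ← hA, h1, L.inner_map_map, sub_self]

end Helper95.PI
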