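import Pool.Agent.Helper35.PI.St3

/-! # Project PI, module SMP: strong maximum principle, globalisation -/

set_option autoImplicit false

namespace Helper95.PI

open Helper35.PI
open scoped ContDiff Manifold Topology
open Filter Set

/-- positivity propagates in time, abstract form -/
private theorem time_SMP (g : ℝ → ℝ)
    (hloc : ∀ τ : ℝ, τ < 0 → ∃ δ > 0, ∀ t₁ t₂ : ℝ, τ - δ < t₁ → t₁ < t₂ → t₂ < τ + δ → t₂ < 0 →
      0 < g t₁ → 0 < g t₂) (s s' : ℝ) (hs : s < s') (hs' : s' < 0) (h0 : 0 < g s) : 0 < g s' := by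
  by_contra hc
  rw [not_lt] at hc
  set B : Set ℝ := {r | s ≤ r ∧ r ≤ s' ∧ g r ≤ 0} with hB
  have hne : B.Nonempty := ⟨s', hs.le, le_rfl, hc⟩
  have hbd : BddBelow B := ⟨s, fun r hr => hr.1⟩
  set σ := sInf B with hσ
  have h1 : s ≤ σ := le_csInf hne fun r hr => hr.1
  have h2 : σ ≤ s' := csInf_le hbd ⟨hs.le, le_rfl, hc⟩
  have h3 : ∀ r, s ≤ r → r < σ → 0 < g r := by
    intro r hr hrσ
    by_contra h
    exact absurd (csInf_le hbd ⟨hr, by linarith, not_lt.1 h⟩) (not_le.2 hrσ)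
  obtain ⟨δ, hδ, hl⟩ := hloc σ (by linarith)
  obtain ⟨r, hr, hrδ⟩ := exists_lt_of_csInf_lt hne (show sInf B < σ + δ by rw [← hσ]; linarith)
  have hrσ : σ ≤ r := csInf_le hbd hr
  obtain ⟨hr1, hr2, hr3⟩ := hr
  rcases h1.eq_or_lt with h | h
  · rcases hr1.eq_or_lt with h' | h'
    · rw [← h'] at hr3
      linarith
    · have := hl s r (by linarith) h' hrδ (by linarith) h0
      linarith
  · have h4 : 0 < g (max ((s + σ) / 2) (σ - δ / 2)) := by
      refine h3 _ (le_max_of_le_left (by linarith)) (max_lt (by linarith) (by linarith))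
    have := hl _ r (lt_of_lt_of_le (by linarith) (le_max_right _ _))
      (lt_of_lt_of_le (max_lt (by linarith) (by linarith)) hrσ) hrδ (by linarith) h4
    linarith

theorem hSMP (hSC : StSC) (hPO : StPO) (_hI4 : StI4) : StSMP := by
  intro n N hn M _ _ _ _ _ F hF c ε hε hc hc' hp p₀ t₀ ht₀ hH p t ht
  by_contra hne
  have hloc := hSC n N hn M F hF c ε hε hc hc' hp
  have htime : ∀ (q : M) (s s' : ℝ), s < s' → s' < 0 → 0 < gF n c F q s → 0 < gF n c F q s' := by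
    intro q s s' h1 h2 h3
    refine time_SMP (fun r => gF n c F q r) ?_ s s' h1 h2 h3
    intro τ hτ
    obtain ⟨O, hO, δ, hδ, h⟩ := hloc q τ hτ
    exact ⟨δ, hδ, fun t₁ t₂ => h q (mem_of_mem_nhds hO) q (mem_of_mem_nhds hO) t₁ t₂⟩
  have ht0 : t < 0 := by linarith
  set S : Set M := {q | ∀ t', t < t' → t' < 0 → 0 < gF n c F q t'} with hS
  have hcore : ∀ q : M, ∃ O ∈ 𝓝 q, ∀ q₁ ∈ O, ∀ q₂ ∈ O, q₁ ∈ S → q₂ ∈ S := by
    intro q
    obtain ⟨O, hO, δ, hδ, h⟩ := hloc q t ht0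
    refine ⟨O, hO, fun q₁ h₁ q₂ h₂ hq₁ t' ht' ht'0 => ?_⟩
    have hm : t < min t' (t + δ) := lt_min ht' (by linarith)
    obtain ⟨t₂, ht₂, ht₂'⟩ := exists_between hm
    obtain ⟨t₁, ht₁, ht₁'⟩ := exists_between ht₂
    obtain ⟨a1, a2⟩ := lt_min_iff.1 ht₂'
    have b1 : 0 < gF n c F q₁ t₁ := hq₁ t₁ ht₁ (by linarith)
    have b2 : 0 < gF n c F q₂ t₂ := h q₁ h₁ q₂ h₂ t₁ t₂ (by linarith) ht₁' a2 (by linarith) b1
    exact htime q₂ t₂ t' a1 ht'0 b2
  have hopen : IsOpen S := by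
    rw [isOpen_iff_mem_nhds]
    intro q hq
    obtain ⟨O, hO, h⟩ := hcore q
    exact mem_of_superset hO fun q' hq' => h q (mem_of_mem_nhds hO) q' hq' hq
  have hclosed : IsClosed S := by
    rw [← closure_subset_iff_isClosed]
    intro q hq
    obtain ⟨O, hO, h⟩ := hcore q
    obtain ⟨q₁, h₁, h₂⟩ := mem_closure_iff_nhds.1 hq O hO
    exact h q₁ h₁ q (mem_of_mem_nhds hO) h₂
  have hgp : 0 < gF n c F p t := by
    have h1 := hp p t ht0
    have h2 : 0 < ‖HH (n := n) F p t‖ ^ 2 := by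
      have : 0 < ‖HH (n := n) F p t‖ := norm_pos_iff.2 hne
      positivity
    unfold gF
    nlinarith
  have hpS : p ∈ S := fun t' h1 h2 => htime p t t' h1 h2 hgp
  have hSu : S = univ := IsClopen.eq_univ ⟨hclosed, hopen⟩ ⟨p, hpS⟩
  have hp₀ : p₀ ∈ S := by rw [hSu]; exact mem_univ _
  have h1 := hp₀ t₀ ht ht₀
  have h2 := (hPO n N hn M F hF p₀ t₀ ht₀).1
  unfold gF at h1
  rw [hH] at h1
  simp only [norm_zero] at h1
  nlinarith

end Helper95.PI
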