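import Pool.Agent.Helper35.PI.St4

/-! # Project PI, module V10: pointwise facts on `h` -/

set_option autoImplicit false

namespace Helper95.PI

open Helper35.PI
open scoped ContDiff Manifold Topology
open Filter Set

/-- the derivative of the cube of the positive part -/
private theorem cube_V10 (x : ℝ) :
    HasDerivAt (fun y : ℝ => (max 0 y) ^ 3) (3 * (max 0 x) ^ 2) x := by
  rcases lt_trichotomy x 0 with h | h | h
  · have e : (fun y : ℝ => (max 0 y) ^ 3) =ᶠ[𝓝 x] fun _ => 0 := by
      filter_upwards [gt_mem_nhds h] with y hy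
      rw [max_eq_left hy.le]
      norm_num
    rw [max_eq_left h.le]
    simpa using (hasDerivAt_const x (0 : ℝ)).congr_of_eventuallyEq e
  · subst h
    have h1 : (fun y : ℝ => (max 0 y) ^ 3) =O[𝓝 0] fun y => ‖y - 0‖ ^ 3 := by
      refine Asymptotics.IsBigO.of_bound 1 (Eventually.of_forall fun y => ?_)
      rw [one_mul, sub_zero, norm_pow, norm_pow, norm_norm]
      refine pow_le_pow_left₀ (norm_nonneg _) ?_ 3
      rw [Real.norm_eq_abs, Real.norm_eq_abs, abs_of_nonneg (le_max_left _ _)]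
      exact max_le (abs_nonneg _) (le_abs_self _)
    have h2 := (h1.hasFDerivAt (𝕜 := ℝ) (by norm_num)).hasDerivAt
    simpa using h2
  · have e : (fun y : ℝ => (max 0 y) ^ 3) =ᶠ[𝓝 x] fun y => y ^ 3 := by
      filter_upwards [lt_mem_nhds h] with y hy
      rw [max_eq_right hy.le]
    rw [max_eq_right h.le]
    have := (hasDerivAt_pow 3 x).congr_of_eventuallyEq e
    simpa using this

theorem hV10 (hV1 : StV1) (hI2 : StI2) (hI3 : StI3) (hI4 : StI4) : StV10 := by
  intro n N hn M _ _ _ F hF ρ T₀ hρ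
  have hn0 : (0 : ℝ) ≤ n := Nat.cast_nonneg n
  refine ⟨fun q t ht hT => ?_, fun p => ?_⟩
  · constructor
    · unfold hN
      rcases le_or_gt (ρ ^ 2 - ‖F q t‖ ^ 2 - 2 * n * (t - T₀)) 0 with h | h
      · have hw : wN n F ρ T₀ q t = 0 := max_eq_left h
        rw [hw]
        have : (0 : ℝ) ≤ 9 * ρ ^ 4 := by positivity
        simpa using this
      · have hw : wN n F ρ T₀ q t = ρ ^ 2 - ‖F q t‖ ^ 2 - 2 * n * (t - T₀) := max_eq_right h.le
        set w := wN n F ρ T₀ q t with hwd
        have hw0 : 0 < w := by rw [hw]; exact h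
        have h1 : 0 ≤ 2 * (n : ℝ) * (t - T₀) := by
          have : 0 ≤ t - T₀ := by linarith
          positivity
        have hwρ : w ≤ ρ ^ 2 := by
          rw [hw]
          nlinarith [sq_nonneg ‖F q t‖]
        have hFρ : ‖F q t‖ ^ 2 ≤ ρ ^ 2 := by linarith
        have hcs : -(‖F q t‖ * ‖HH (n := n) F q t‖) ≤ inner ℝ (F q t) (HH (n := n) F q t) :=
          (abs_le.1 (abs_real_inner_le_norm _ _)).1
        have h2 : 0 ≤ 6 * w ^ 2 * (inner ℝ (F q t) (HH (n := n) F q t)
            + ‖F q t‖ * ‖HH (n := n) F q t‖) := by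
          have : 0 ≤ inner ℝ (F q t) (HH (n := n) F q t) + ‖F q t‖ * ‖HH (n := n) F q t‖ := by
            linarith
          positivity
        have h3 : 0 ≤ w * (w * ‖HH (n := n) F q t‖ - 3 * ‖F q t‖) ^ 2 := by positivity
        have h4 : 9 * w * ‖F q t‖ ^ 2 ≤ 9 * ρ ^ 2 * ρ ^ 2 := by
          have h5 : w * ‖F q t‖ ^ 2 ≤ ρ ^ 2 * ρ ^ 2 :=
            mul_le_mul hwρ hFρ (sq_nonneg _) (sq_nonneg _)
          linarith
        have h6 : 0 ≤ 6 * (n : ℝ) * w ^ 2 := by positivity
        nlinarith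
    · intro hlt
      have h1 : 0 ≤ 2 * (n : ℝ) * (t - T₀) := by
        have : 0 ≤ t - T₀ := by linarith
        positivity
      have h2 : ρ ^ 2 < ‖F q t‖ ^ 2 := pow_lt_pow_left₀ hlt hρ.le (by norm_num)
      have hw : wN n F ρ T₀ q t = 0 := max_eq_left (by linarith)
      unfold hN
      rw [hw]
      simp
  · -- the chart at `p`
    set f : EE n × ℝ → EE N := fun z => F ((chartAt (EE n) p).symm z.1) z.2 with hf
    have hopen : IsOpen ((chartAt (EE n) p).target ×ˢ Iio (0 : ℝ)) :=
      (chartAt (EE n) p).open_target.prod isOpen_Iio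
    have hfc : ∀ z ∈ (chartAt (EE n) p).target ×ˢ Iio (0 : ℝ), ContDiffAt ℝ ∞ f z := fun z hz =>
      (hI2 n N M F hF p z hz).contDiffAt (hopen.mem_nhds hz)
    have hpt : ∀ z ∈ (chartAt (EE n) p).target ×ˢ Iio (0 : ℝ),
        LI (fun y => f (y, z.2)) z.1 ∧
        HH (n := n) F ((chartAt (EE n) p).symm z.1) z.2 = mcv (fun y => f (y, z.2)) z.1 := by
      intro z hz
      have h := hI3 n N M F hF p ((chartAt (EE n) p).symm z.1) z.2 hz.2
        ((chartAt (EE n) p).map_target hz.1)
      rw [(chartAt (EE n) p).right_inv hz.1] at h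
      exact ⟨h.1, h.2.1⟩
    have hjt : ∀ z ∈ (chartAt (EE n) p).target ×ˢ Iio (0 : ℝ),
        jt f z = mcv (fun y => f (y, z.2)) z.1 := by
      intro z hz
      rw [← (hpt z hz).2]
      have h1 : HasFDerivAt f (fderiv ℝ f z) (z.1, z.2) :=
        ((hfc z hz).differentiableAt (by simp)).hasFDerivAt
      have h2 : HasDerivAt (fun r : ℝ => (z.1, r)) ((0 : EE n), (1 : ℝ)) z.2 :=
        (hasDerivAt_const z.2 z.1).prodMk (hasDerivAt_id z.2)
      have h3 : HasDerivAt (fun r : ℝ => f (z.1, r)) (fderiv ℝ f z (0, 1)) z.2 :=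
        h1.comp_hasDerivAt z.2 h2
      exact h3.unique (hF.flow ((chartAt (EE n) p).symm z.1) z.2 hz.2)
    have hsg : ∀ z ∈ (chartAt (EE n) p).target ×ˢ Iio (0 : ℝ),
        ContinuousAt (fun z : EE n × ℝ => sgm (loc (n := n) F p z.2) z.1) z ∧
        HasDerivAt (fun r => sgm (loc (n := n) F p r) z.1)
          (-‖HH (n := n) F ((chartAt (EE n) p).symm z.1) z.2‖ ^ 2 * sgm (loc (n := n) F p z.2) z.1)
          z.2 := by
      intro z hz
      obtain ⟨-, h2, h3⟩ := hV1 n N f z (hfc z hz) (hpt z hz).1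
      refine ⟨h2.continuousAt, ?_⟩
      have h4 := h3 (by
        filter_upwards [hopen.mem_nhds hz] with z' hz'
        exact hjt z' hz')
      rw [(hpt z hz).2]
      exact h4
    refine ⟨fun y hy t ht => ?_, ?_⟩
    · have hz : ((y, t) : EE n × ℝ) ∈ (chartAt (EE n) p).target ×ˢ Iio (0 : ℝ) := ⟨hy, ht⟩
      set q := (chartAt (EE n) p).symm y with hq
      have hF' : HasDerivAt (fun r => F q r) (HH (n := n) F q t) t := hF.flow q t ht
      have hv : HasDerivAt (fun r => ρ ^ 2 - ‖F q r‖ ^ 2 - 2 * n * (r - T₀))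
          (-(2 * inner ℝ (F q t) (HH (n := n) F q t)) - 2 * n) t := by
        have h1 := hF'.norm_sq
        have h2 : HasDerivAt (fun r : ℝ => 2 * (n : ℝ) * (r - T₀)) (2 * n) t := by
          simpa using ((hasDerivAt_id t).sub_const T₀).const_mul (2 * (n : ℝ))
        exact (h1.const_sub (ρ ^ 2)).sub h2
      have hw3 : HasDerivAt (fun r => wN n F ρ T₀ q r ^ 3)
          (3 * wN n F ρ T₀ q t ^ 2 * (-(2 * inner ℝ (F q t) (HH (n := n) F q t)) - 2 * n)) t := by
        have h1 : HasDerivAt ((fun y : ℝ => (max 0 y) ^ 3) ∘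
            (fun r => ρ ^ 2 - ‖F q r‖ ^ 2 - 2 * n * (r - T₀)))
            (3 * (max 0 (ρ ^ 2 - ‖F q t‖ ^ 2 - 2 * n * (t - T₀))) ^ 2 *
              (-(2 * inner ℝ (F q t) (HH (n := n) F q t)) - 2 * n)) t :=
          HasDerivAt.comp t (cube_V10 _) hv
        exact h1
      have h := hw3.mul (hsg (y, t) hz).2
      refine h.congr_deriv ?_
      unfold hN
      simp only [← hq]
      ring
    · have hmap : ContinuousOn (fun z : EE n × ℝ => (((chartAt (EE n) p).symm z.1, z.2) : M × ℝ))
          ((chartAt (EE n) p).target ×ˢ Iio (0 : ℝ)) := by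
        refine ContinuousOn.prodMk ?_ continuousOn_snd
        exact (chartAt (EE n) p).continuousOn_symm.comp continuousOn_fst fun z hz => hz.1
      have hmt : MapsTo (fun z : EE n × ℝ => (((chartAt (EE n) p).symm z.1, z.2) : M × ℝ))
          ((chartAt (EE n) p).target ×ˢ Iio (0 : ℝ)) (univ ×ˢ Iio 0) := fun z hz => ⟨mem_univ _, hz.2⟩
      obtain ⟨i1, i2, -, -⟩ := hI4 n N M F hF
      have comp_V10 : ∀ (V : Type) [TopologicalSpace V] (g : M → ℝ → V),
          ContinuousOn (fun z : M × ℝ => g z.1 z.2) (univ ×ˢ Iio 0) →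
          ContinuousOn (fun z : EE n × ℝ => g ((chartAt (EE n) p).symm z.1) z.2)
            ((chartAt (EE n) p).target ×ˢ Iio (0 : ℝ)) := fun V _ g hg => hg.comp hmap hmt
      have cF : ContinuousOn (fun z : EE n × ℝ => F ((chartAt (EE n) p).symm z.1) z.2)
          ((chartAt (EE n) p).target ×ˢ Iio (0 : ℝ)) := comp_V10 (EE N) F i1
      have cH : ContinuousOn (fun z : EE n × ℝ => HH (n := n) F ((chartAt (EE n) p).symm z.1) z.2)
          ((chartAt (EE n) p).target ×ˢ Iio (0 : ℝ)) :=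
        comp_V10 (EE N) (fun q r => HH (n := n) F q r) i2
      have cw : ContinuousOn (fun z : EE n × ℝ => wN n F ρ T₀ ((chartAt (EE n) p).symm z.1) z.2)
          ((chartAt (EE n) p).target ×ˢ Iio (0 : ℝ)) := by
        unfold wN
        refine ContinuousOn.sup continuousOn_const ?_
        exact (continuousOn_const.sub (cF.norm.pow 2)).sub
          (continuousOn_const.mul (continuousOn_snd.sub continuousOn_const))
      have cs : ContinuousOn (fun z : EE n × ℝ => sgm (loc (n := n) F p z.2) z.1)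
          ((chartAt (EE n) p).target ×ˢ Iio (0 : ℝ)) := fun z hz => (hsg z hz).1.continuousWithinAt
      refine ContinuousOn.mul ?_ cs
      unfold hN
      exact (((continuousOn_const.mul (cw.pow 2)).mul (cF.inner cH)).sub
        (continuousOn_const.mul (cw.pow 2))).sub ((cH.norm.pow 2).mul (cw.pow 3))

end Helper95.PI
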