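import Pool.Agent.Helper35.PI.St1

/-! # Project PI, module VP: vector part of a 3-tensor -/

set_option autoImplicit false

namespace Helper95.PI

open Helper35.PI
open scoped BigOperators RealInnerProductSpace

section
variable {n : ℕ} {V : Type} [NormedAddCommGroup V] [InnerProductSpace ℝ V]

private noncomputable def Kt (α β : ℝ) (v : Fin n → V) (k i j : Fin n) : V :=
  α • ((if i = k then v j else 0) + (if j = k then v i else 0)) - β • (if i = j then v k else 0)

private theorem inner_ite_VP (P : Prop) [Decidable P] (x y : V) :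
    ⟪x, (if P then y else 0)⟫ = if P then ⟪x, y⟫ else 0 := by
  split_ifs <;> simp

private theorem key_VP (α β : ℝ) (v : Fin n → V) (Y : Fin n → Fin n → Fin n → V)
    (hs : ∀ k i j, Y k i j = Y k j i) (ht : ∀ k, ∑ i, Y k i i = 0) :
    ∑ k, ∑ i, ∑ j, ⟪Y k i j, Kt α β v k i j⟫ = 2 * α * ∑ j, ⟪∑ k, Y k k j, v j⟫ := by
  have e : ∀ k i j, ⟪Y k i j, Kt α β v k i j⟫ =
      α * (if i = k then ⟪Y k i j, v j⟫ else 0) + α * (if j = k then ⟪Y k i j, v i⟫ else 0)
        - β * (if i = j then ⟪Y k i j, v k⟫ else 0) := by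
    intro k i j
    unfold Kt
    rw [inner_sub_right, inner_smul_right, inner_smul_right, inner_add_right, inner_ite_VP,
      inner_ite_VP, inner_ite_VP]
    ring
  have s1 : ∑ k, ∑ i, ∑ j, (if i = k then ⟪Y k i j, v j⟫ else 0) = ∑ j, ⟪∑ k, Y k k j, v j⟫ := by
    have : ∀ k : Fin n, ∑ i, ∑ j, (if i = k then ⟪Y k i j, v j⟫ else 0) = ∑ j, ⟪Y k k j, v j⟫ := by
      intro k
      rw [Finset.sum_comm]
      refine Finset.sum_congr rfl fun j _ => ?_
      rw [Finset.sum_ite_eq' Finset.univ k (fun i => ⟪Y k i j, v j⟫)]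
      simp
    simp_rw [this]
    rw [Finset.sum_comm]
    simp_rw [sum_inner]
  have s2 : ∑ k, ∑ i, ∑ j, (if j = k then ⟪Y k i j, v i⟫ else 0) = ∑ j, ⟪∑ k, Y k k j, v j⟫ := by
    have : ∀ k i : Fin n, ∑ j, (if j = k then ⟪Y k i j, v i⟫ else 0) = ⟪Y k k i, v i⟫ := by
      intro k i
      rw [Finset.sum_ite_eq' Finset.univ k (fun j => ⟪Y k i j, v i⟫), hs k i k]
      simp
    simp_rw [this]
    rw [Finset.sum_comm]
    simp_rw [sum_inner]
  have s3 : ∑ k, ∑ i, ∑ j, (if i = j then ⟪Y k i j, v k⟫ else 0) = 0 := by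
    refine Finset.sum_eq_zero fun k _ => ?_
    have : ∀ i : Fin n, ∑ j, (if i = j then ⟪Y k i j, v k⟫ else 0) = ⟪Y k i i, v k⟫ := by
      intro i
      rw [Finset.sum_ite_eq Finset.univ i (fun j => ⟪Y k i j, v k⟫)]
      simp
    simp_rw [this]
    rw [← sum_inner, ht k, inner_zero_left]
  simp_rw [e, Finset.sum_sub_distrib, Finset.sum_add_distrib, ← Finset.mul_sum]
  rw [s1, s2, s3]
  ring

end

theorem hVP : StVP := by
  intro n hn V _ _ X hs ht
  have hn' : (2 : ℝ) ≤ n := by exact_mod_cast hn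
  have h1 : (n : ℝ) - 1 ≠ 0 := by linarith
  have h2 : (n : ℝ) + 2 ≠ 0 := by linarith
  have h0 : (n : ℝ) ≠ 0 := by linarith
  set v : Fin n → V := fun j => ∑ k, X k k j with hv
  set α : ℝ := n / ((n + 2) * (n - 1)) with hα
  set β : ℝ := 2 / ((n + 2) * (n - 1)) with hβ
  have kX := key_VP α β v X hs ht
  have kK := key_VP α β v (Kt α β v) (by
      intro k i j
      unfold Kt
      rw [add_comm (if i = k then v j else 0)]
      congr 1
      simp only [eq_comm (a := i) (b := j)]) (by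
      intro k
      unfold Kt
      rw [Finset.sum_sub_distrib, ← Finset.smul_sum, ← Finset.smul_sum, Finset.sum_add_distrib]
      simp only [Finset.sum_ite_eq', Finset.mem_univ, if_true, Finset.sum_const, Finset.card_univ,
        Fintype.card_fin]
      rw [← two_smul ℝ (v k), smul_smul, ← Nat.cast_smul_eq_nsmul ℝ, smul_smul, ← sub_smul]
      have : α * 2 - β * n = 0 := by rw [hα, hβ]; field_simp; ring
      rw [this, zero_smul])
  have hdiv : ∀ j, ∑ k, Kt α β v k k j = v j := by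
    intro j
    unfold Kt
    rw [Finset.sum_sub_distrib, ← Finset.smul_sum, ← Finset.smul_sum, Finset.sum_add_distrib]
    simp only [if_true, Finset.sum_const, Finset.card_univ, Fintype.card_fin, Finset.sum_ite_eq,
      Finset.sum_ite_eq', Finset.mem_univ]
    rw [← Nat.cast_smul_eq_nsmul ℝ, smul_add, smul_smul, ← add_smul, ← sub_smul]
    have : α * n + α - β = 1 := by rw [hα, hβ]; field_simp; ring
    rw [this, one_smul]
  have hvv : ∑ j, ⟪∑ k, X k k j, v j⟫ = ∑ j, ‖v j‖ ^ 2 := by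
    refine Finset.sum_congr rfl fun j _ => ?_
    rw [← real_inner_self_eq_norm_sq]
  have hKK : ∑ j, ⟪∑ k, Kt α β v k k j, v j⟫ = ∑ j, ‖v j‖ ^ 2 := by
    refine Finset.sum_congr rfl fun j _ => ?_
    rw [hdiv j, ← real_inner_self_eq_norm_sq]
  rw [hvv] at kX
  rw [hKK] at kK
  have hpos : 0 ≤ ∑ k, ∑ i, ∑ j, ‖X k i j - Kt α β v k i j‖ ^ 2 := by positivity
  have hexp : ∑ k, ∑ i, ∑ j, ‖X k i j - Kt α β v k i j‖ ^ 2 =
      ∑ k, ∑ i, ∑ j, ‖X k i j‖ ^ 2 - 2 * ∑ k, ∑ i, ∑ j, ⟪X k i j, Kt α β v k i j⟫ +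
        ∑ k, ∑ i, ∑ j, ⟪Kt α β v k i j, Kt α β v k i j⟫ := by
    simp_rw [Finset.mul_sum, ← Finset.sum_sub_distrib, ← Finset.sum_add_distrib]
    refine Finset.sum_congr rfl fun k _ => Finset.sum_congr rfl fun i _ =>
      Finset.sum_congr rfl fun j _ => ?_
    rw [norm_sub_sq_real, real_inner_self_eq_norm_sq]
  rw [hexp, kX, kK] at hpos
  have hc : 2 * (n : ℝ) / ((n + 2) * (n - 1)) = 2 * α := by rw [hα]; ring
  rw [hc]
  linarith

end Helper95.PI
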